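import Pool.Agent.R756.TD.Core

/-!
Line-free supports of functions with blocks of coordinates of bounded flattening rank.
-/

set_option autoImplicit false

namespace Pool.Agent.R756.TN

open Finset hiding dens
open Pool.Agent.Helper868.DHJ
open Pool.Agent.R756.TD (repl glue_eq LocalP)

/-- finitely many evaluations detect the nonzero linear combinations -/
lemma exists_detect {K κ U : Type} [Field K] [Fintype κ] (a : κ → U → K) :
    ∃ E : Finset U, E.card ≤ Fintype.card κ ∧ ∀ c : κ → K,
      (∀ u ∈ E, ∑ k, a k u * c k = 0) → ∀ u, ∑ k, a k u * c k = 0 := by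
  classical
  obtain ⟨ι', e, he, hspan, hli⟩ := exists_linearIndependent' K (fun u k => a k u)
  have hfin : Finite ι' := hli.finite
  have := Fintype.ofFinite ι'
  refine ⟨univ.image e, ?_, ?_⟩
  · refine card_image_le.trans ?_
    rw [card_univ]
    have := hli.fintype_card_le_finrank
    simpa using this
  · intro c hc u
    have h1 : (fun k => a k u) ∈ Submodule.span K (Set.range ((fun u k => a k u) ∘ e)) := by
      rw [hspan]
      exact Submodule.subset_span ⟨u, rfl⟩
    let φ : (κ → K) →ₗ[K] K := ∑ k, c k • LinearMap.proj k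
    have hφ : ∀ v : κ → K, φ v = ∑ k, v k * c k := by
      intro v
      simp only [φ, LinearMap.coe_sum, Finset.sum_apply, LinearMap.smul_apply, LinearMap.proj_apply,
        smul_eq_mul]
      exact Finset.sum_congr rfl fun k _ => mul_comm _ _
    have h2 : Submodule.span K (Set.range ((fun u k => a k u) ∘ e)) ≤ LinearMap.ker φ := by
      rw [Submodule.span_le]
      rintro _ ⟨i, rfl⟩
      rw [SetLike.mem_coe, LinearMap.mem_ker, hφ]
      exact hc (e i) (mem_image_of_mem _ (mem_univ i))
    have h3 := h2 h1
    rw [LinearMap.mem_ker, hφ] at h3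
    exact h3

section

variable {ι α : Type} [DecidableEq ι]

/-- the function depends only on the coordinates in `B` -/
def Local {Y : Type} (B : Finset ι) (f : (ι → α) → Y) : Prop :=
  ∀ x y : ι → α, (∀ i ∈ B, x i = y i) → f x = f y

/-- the function depends only on the coordinates outside `B` -/
def LocalC {Y : Type} (B : Finset ι) (f : (ι → α) → Y) : Prop :=
  ∀ x y : ι → α, (∀ i, i ∉ B → x i = y i) → f x = f y

/-- there is no combinatorial line with active coordinates in `S` -/
def LF (S : Finset ι) (A : Set (ι → α)) : Prop :=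
  ∀ u : ι → Option α, (∃ i, u i = none) → (∀ i, u i = none → i ∈ S) → ∃ b, pt u b ∉ A

/-- the flattening of `f`, coordinates in `B` against the other ones, has rank at most `d` -/
def Rk {K : Type} [Field K] (d : ℕ) (B : Finset ι) (f : (ι → α) → K) : Prop :=
  ∃ (κ : Type) (_ : Fintype κ) (a b : κ → (ι → α) → K), Fintype.card κ ≤ d ∧
    (∀ k, Local B (a k)) ∧ (∀ k, LocalC B (b k)) ∧ ∀ x, f x = ∑ k, a k x * b k x

omit [DecidableEq ι] in
lemma repl_repl (p : ι → Prop) [DecidablePred p] (u v : {i // p i} → α) (x : ι → α) :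
    repl p u (repl p v x) = repl p u x := by
  funext i
  unfold repl
  by_cases h : p i <;> simp [h]

/-- one block -/
lemma step {K : Type} [Field K] [Fintype ι] [Fintype α] [Nonempty α]
    {N : ℕ} {η : ℝ} (hη : 0 < η)
    (hN : ∀ (κ : Type) [Fintype κ] [DecidableEq κ], N ≤ Fintype.card κ →
      ∀ C : Set (κ → α), LineFree C → dens C < η)
    (p : ι → Prop) [DecidablePred p] (hB : N ≤ Fintype.card {i // p i}) (f : (ι → α) → K)
    (E : Finset ({i // p i} → α))
    (hdet : ∀ x, (∀ u ∈ E, f (repl p u x) = 0) → ∀ u, f (repl p u x) = 0)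
    (hfree : ∀ x, LineFree {t : {i // p i} → α | f (repl p t x) ≠ 0})
    (δ : ℝ) (hδ : ∀ u ∈ E, dens {x | f (repl p u x) ≠ 0} ≤ δ) :
    dens {x | f x ≠ 0} ≤ E.card * η * δ := by
  classical
  obtain ⟨x0⟩ : Nonempty (ι → α) := inferInstance
  obtain ⟨t0⟩ : Nonempty ({i // p i} → α) := inferInstance
  have hsec : ∀ x : ι → α, dens {t : {i // p i} → α | f (repl p t x) ≠ 0} ≤
      ∑ u ∈ E, η * ind {x | f (repl p u x) ≠ 0} x := by
    intro x
    by_cases hx : ∀ u ∈ E, f (repl p u x) = 0
    · have h1 : {t : {i // p i} → α | f (repl p t x) ≠ 0} = ∅ := by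
        ext t
        simp [hdet x hx t]
      have h2 : dens {t : {i // p i} → α | f (repl p t x) ≠ 0} = 0 := by
        rw [h1]
        unfold dens
        rw [av_eq_sum]
        simp [ind]
      rw [h2]
      exact sum_nonneg fun u _ => mul_nonneg hη.le (ind_nonneg _ _)
    · push Not at hx
      obtain ⟨u, hu, hux⟩ := hx
      have h1 : dens {t : {i // p i} → α | f (repl p t x) ≠ 0} < η := hN {i // p i} hB _ (hfree x)
      refine h1.le.trans ?_
      calc η = η * ind {x | f (repl p u x) ≠ 0} x := by
            rw [ind_mem (by exact hux), mul_one]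
        _ ≤ _ := single_le_sum (f := fun u => η * ind {x | f (repl p u x) ≠ 0} x)
            (fun u _ => mul_nonneg hη.le (ind_nonneg _ _)) hu
  have ext : ∀ y : {i // ¬ p i} → α, ∃ x : ι → α, ∀ i : {i // ¬ p i}, x i.1 = y i := by
    intro y
    refine ⟨fun i => if h : p i then x0 i else y ⟨i, h⟩, ?_⟩
    rintro ⟨i, hi⟩
    simp [hi]
  have hmain : dens {x | f x ≠ 0} ≤ ∑ u ∈ E, η * dens {x | f (repl p u x) ≠ 0} := by
    have h1 : dens {x | f x ≠ 0} ≤ av (fun y : {i // ¬ p i} → α =>
        ∑ u ∈ E, η * ind {x | f (repl p u x) ≠ 0} (glue p t0 y)) := by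
      unfold dens
      rw [av_glue p]
      refine av_mono fun y => ?_
      obtain ⟨x, hx⟩ := ext y
      have h2 := hsec (glue p t0 y)
      refine le_trans (le_of_eq ?_) h2
      unfold dens
      congr 1
      funext t
      apply ind_congr
      rw [glue_eq p t y x hx, glue_eq p t0 y x hx]
      simp only [Set.mem_ofPred_eq, repl_repl]
    refine h1.trans (le_of_eq ?_)
    rw [av_sum]
    refine sum_congr rfl fun u _ => ?_
    rw [av_const_mul]
    congr 1
    unfold dens
    rw [av_glue p]
    congr 1
    funext y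
    obtain ⟨x, hx⟩ := ext y
    rw [← av_const (X := {i // p i} → α) (ind {x | f (repl p u x) ≠ 0} (glue p t0 y))]
    congr 1
    funext t
    apply ind_congr
    rw [glue_eq p t y x hx, glue_eq p t0 y x hx]
    simp only [Set.mem_ofPred_eq, repl_repl]
  calc dens {x | f x ≠ 0} ≤ ∑ u ∈ E, η * dens {x | f (repl p u x) ≠ 0} := hmain
    _ ≤ ∑ _u ∈ E, η * δ := sum_le_sum fun u hu => mul_le_mul_of_nonneg_left (hδ u hu) hη.le
    _ = E.card * η * δ := by
        rw [sum_const, nsmul_eq_mul]; ring

theorem rank_core {K : Type} [Field K] [Fintype ι] [Fintype α] [Nonempty α]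
    {N d : ℕ} {η : ℝ} (hη : 0 < η) (hd : d * η ≤ 1 / 2)
    (hN : ∀ (κ : Type) [Fintype κ] [DecidableEq κ], N ≤ Fintype.card κ →
      ∀ C : Set (κ → α), LineFree C → dens C < η) (L : List (Finset ι)) :
    ∀ (f : (ι → α) → K) (S : Finset ι), (∀ B ∈ L, B ⊆ S) → (∀ B ∈ L, N ≤ B.card) →
      L.Pairwise Disjoint → (∀ B ∈ L, Rk d B f) → LF S {x | f x ≠ 0} →
      dens {x | f x ≠ 0} ≤ (1 / 2) ^ L.length := by
  classical
  induction L with
  | nil =>
    intro f S _ _ _ _ _
    simpa using dens_le_one _
  | cons B L ih =>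
    intro f S hS hcard hpw hrk hfree
    rw [List.pairwise_cons] at hpw
    obtain ⟨κ, _, a, b, hκ, ha, hb, hf⟩ := hrk B List.mem_cons_self
    obtain ⟨x0⟩ : Nonempty (ι → α) := inferInstance
    obtain ⟨E, hE, hE2⟩ := exists_detect (K := K) (U := {i // i ∈ B} → α)
      (fun k u => a k (repl (fun i => i ∈ B) u x0))
    have ha' : ∀ k u x, a k (repl (fun i => i ∈ B) u x) = a k (repl (fun i => i ∈ B) u x0) := by
      intro k u x
      apply ha k
      intro i hi
      simp [repl, hi]
    have hb' : ∀ k u x, b k (repl (fun i => i ∈ B) u x) = b k x := by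
      intro k u x
      apply hb k
      intro i hi
      simp [repl, hi]
    have hfu : ∀ u x, f (repl (fun i => i ∈ B) u x) =
        ∑ k, a k (repl (fun i => i ∈ B) u x0) * b k x := by
      intro u x
      rw [hf]
      exact sum_congr rfl fun k _ => by rw [ha', hb']
    have hdet : ∀ x, (∀ u ∈ E, f (repl (fun i => i ∈ B) u x) = 0) →
        ∀ u, f (repl (fun i => i ∈ B) u x) = 0 := by
      intro x hx u
      rw [hfu]
      refine hE2 (fun k => b k x) ?_ u
      intro v hv
      have := hx v hv
      rwa [hfu] at this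
    -- induction hypothesis for the restrictions
    have hind : ∀ u : {i // i ∈ B} → α, dens {x | f (repl (fun i => i ∈ B) u x) ≠ 0} ≤
        (1 / 2) ^ L.length := by
      intro u
      refine ih (fun x => f (repl (fun i => i ∈ B) u x)) (S \ B) ?_
        (fun C hC => hcard C (List.mem_cons_of_mem _ hC)) hpw.2 ?_ ?_
      · intro C hC
        rw [subset_sdiff]
        exact ⟨hS C (List.mem_cons_of_mem _ hC), (hpw.1 C hC).symm⟩
      · intro C hC
        obtain ⟨κ', hfin', a', b', h1, h2, h3, h4⟩ := hrk C (List.mem_cons_of_mem _ hC)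
        refine ⟨κ', hfin', fun k x => a' k (repl (fun i => i ∈ B) u x),
          fun k x => b' k (repl (fun i => i ∈ B) u x), h1, ?_, ?_, fun x => h4 _⟩
        · intro k x y hxy
          apply h2 k
          intro i hi
          have hn : i ∉ B := fun hiB => disjoint_left.1 (hpw.1 C hC) hiB hi
          simp [repl, hn, hxy i hi]
        · intro k x y hxy
          apply h3 k
          intro i hi
          by_cases hp : i ∈ B
          · simp [repl, hp]
          · simp [repl, hp, hxy i hi]
      · intro v hv hvS
        obtain ⟨i0, hi0⟩ := hv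
        have hact : ∀ i, v i = none → i ∉ B := fun i hi => (mem_sdiff.1 (hvS i hi)).2
        obtain ⟨c, hc⟩ := hfree (fun i => if h : i ∈ B then some (u ⟨i, h⟩) else v i)
          ⟨i0, by simp [hact i0 hi0, hi0]⟩ (by
            intro i hi
            by_cases hp : i ∈ B
            · simp [hp] at hi
            · simp only [hp, dite_false] at hi
              exact (mem_sdiff.1 (hvS i hi)).1)
        refine ⟨c, ?_⟩
        have e1 : pt (fun i => if h : i ∈ B then some (u ⟨i, h⟩) else v i) c =
            repl (fun i => i ∈ B) u (pt v c) := by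
          funext i
          unfold pt repl
          by_cases h : i ∈ B <;> simp [h]
        rw [e1] at hc
        exact hc
    have hmain : dens {x | f x ≠ 0} ≤ E.card * η * (1 / 2) ^ L.length := by
      refine step hη hN (fun i => i ∈ B) ?_ f E hdet ?_ _ (fun u _ => hind u)
      · rw [Fintype.card_subtype]
        simpa using hcard B List.mem_cons_self
      · intro x v hv
        obtain ⟨⟨i0, hi0⟩, hi⟩ := hv
        obtain ⟨c, hc⟩ := hfree (fun i => if h : i ∈ B then v ⟨i, h⟩ else some (x i))
          ⟨i0, by simp [hi0, hi]⟩ (by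
            intro i hi
            by_cases hp : i ∈ B
            · exact hS B List.mem_cons_self hp
            · simp [hp] at hi)
        refine ⟨c, ?_⟩
        have e1 : pt (fun i => if h : i ∈ B then v ⟨i, h⟩ else some (x i)) c =
            repl (fun i => i ∈ B) (pt v c) x := by
          funext i
          unfold pt repl
          by_cases h : i ∈ B <;> simp [h]
        rw [e1] at hc
        exact hc
    calc dens {x | f x ≠ 0} ≤ E.card * η * (1 / 2) ^ L.length := hmain
      _ ≤ 1 / 2 * (1 / 2) ^ L.length := by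
          apply mul_le_mul_of_nonneg_right _ (by positivity)
          refine le_trans ?_ hd
          apply mul_le_mul_of_nonneg_right _ hη.le
          exact_mod_cast hE.trans hκ
      _ = (1 / 2) ^ (B :: L).length := by
          rw [List.length_cons, pow_succ]; ring

end

end Pool.Agent.R756.TN
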