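import Pool.Agent.R756.TN.Net

/-!
Examples of functions computed by read-once tree tensor networks.
-/

set_option autoImplicit false

namespace Pool.Agent.R756.TN

variable {K ι α W : Type} [Field K]

/-- the pointwise product -/
noncomputable def pmul (K W : Type) [Field K] : (W → K) →ₗ[K] (W → K) →ₗ[K] (W → K) :=
  LinearMap.mk₂ K (fun u v => u * v) (fun a b c => add_mul a b c)
    (fun c a b => by simp) (fun a b c => mul_add a b c) (fun c a b => by simp)

/-- products of functions of one coordinate each, for all `w` in parallel -/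
noncomputable def chain (f : W → ι → α → K) (i : ι) : List ι → Net K ι α W
  | [] => .leaf i (fun a w => f w i a)
  | j :: l => .node (pmul K W) (chain f i l) (.leaf j (fun a w => f w j a))

lemma chain_eval (f : W → ι → α → K) (i : ι) (l : List ι) (x : ι → α) (w : W) :
    (chain f i l).eval x w = ((i :: l).map fun j => f w j (x j)).prod := by
  induction l with
  | nil => simp [chain, Net.eval]
  | cons j l ih =>
    simp only [chain, Net.eval, pmul, LinearMap.mk₂_apply, Pi.mul_apply]
    rw [ih]
    simp only [List.map_cons, List.prod_cons]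
    ring

lemma chain_vars [DecidableEq ι] (f : W → ι → α → K) (i : ι) (l : List ι) :
    (chain f i l).vars = (i :: l).toFinset := by
  induction l with
  | nil => simp [chain, Net.vars]
  | cons j l ih =>
    simp only [chain, Net.vars, ih]
    ext k
    simp only [List.toFinset_cons, Finset.mem_union, Finset.mem_insert, List.mem_toFinset,
      Finset.mem_singleton]
    tauto

lemma chain_readOnce [DecidableEq ι] (f : W → ι → α → K) (i : ι) (l : List ι)
    (h : (i :: l).Nodup) : (chain f i l).ReadOnce := by
  induction l with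
  | nil => trivial
  | cons j l ih =>
    have h1 : (i :: l).Nodup := by
      rw [List.nodup_cons] at h ⊢
      refine ⟨fun hi => h.1 (List.mem_cons_of_mem _ hi), (List.nodup_cons.1 h.2).2⟩
    refine ⟨?_, ih h1, trivial⟩
    rw [chain_vars]
    simp only [Net.vars, Finset.disjoint_singleton_right, List.mem_toFinset, List.mem_cons]
    rw [List.nodup_cons, List.nodup_cons] at h
    rintro (rfl | hj)
    · exact h.1 List.mem_cons_self
    · exact h.2.1 hj

/-- functions of tensor rank at most `card W` -/
theorem exists_net_rank [Fintype ι] [DecidableEq ι] [Nonempty ι] (f : W → ι → α → K) :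
    ∃ D : Net K ι α W, D.ReadOnce ∧ D.vars = Finset.univ ∧
      ∀ x w, D.eval x w = ∏ i, f w i (x i) := by
  have hne : (Finset.univ : Finset ι).toList ≠ [] := by
    rw [Ne, Finset.toList_eq_nil]
    exact Finset.univ_nonempty.ne_empty
  obtain ⟨i, l, hl⟩ := List.exists_cons_of_ne_nil hne
  refine ⟨chain f i l, chain_readOnce f i l ?_, ?_, ?_⟩
  · rw [← hl]
    exact Finset.nodup_toList _
  · rw [chain_vars, ← hl, Finset.toList_toFinset]
  · intro x w
    rw [chain_eval, ← hl, Finset.prod_map_toList]

/-- the sum of the coordinates in a set, as a linear form -/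
noncomputable def sumOn (K : Type) [Field K] (s : Finset W) : (W → K) →ₗ[K] K :=
  ∑ w ∈ s, LinearMap.proj w

lemma sumOn_apply (s : Finset W) (v : W → K) : sumOn K s v = ∑ w ∈ s, v w := by
  simp [sumOn, LinearMap.sum_apply]

/-- multiplication of matrices -/
noncomputable def mmul (K Q : Type) [Field K] [Fintype Q] :
    (Q × Q → K) →ₗ[K] (Q × Q → K) →ₗ[K] (Q × Q → K) :=
  LinearMap.mk₂ K (fun u v k => ∑ q, u (k.1, q) * v (q, k.2))
    (fun a b c => by
      funext k
      simp only [Pi.add_apply, add_mul, Finset.sum_add_distrib])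
    (fun c a b => by
      funext k
      simp only [Pi.smul_apply, smul_eq_mul, Finset.mul_sum, mul_assoc])
    (fun a b c => by
      funext k
      simp only [Pi.add_apply, mul_add, Finset.sum_add_distrib])
    (fun c a b => by
      funext k
      simp only [Pi.smul_apply, smul_eq_mul, Finset.mul_sum]
      exact Finset.sum_congr rfl fun q _ => by ring)

open Classical in
/-- the number of runs of a machine that reads the coordinates `σ 0, …, σ t` -/
noncomputable def mnet {Q : Type} [Fintype Q] (step : ℕ → Q → α → Q → Prop) (σ : ℕ → ι) :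
    ℕ → Net ℚ ι α (Q × Q)
  | 0 => .leaf (σ 0) (fun a k => if step 0 k.1 a k.2 then 1 else 0)
  | t + 1 => .node (mmul ℚ Q) (mnet step σ t)
      (.leaf (σ (t + 1)) (fun a k => if step (t + 1) k.1 a k.2 then 1 else 0))

lemma mnet_vars [DecidableEq ι] {Q : Type} [Fintype Q] (step : ℕ → Q → α → Q → Prop) (σ : ℕ → ι)
    (t : ℕ) : (mnet step σ t).vars = (Finset.range (t + 1)).image σ := by
  induction t with
  | zero => simp [mnet, Net.vars]
  | succ t ih =>
    rw [mnet, Net.vars, ih, Finset.range_add_one (n := t + 1), Finset.image_insert]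
    ext k
    simp [Net.vars, or_comm]

lemma mnet_readOnce [DecidableEq ι] {Q : Type} [Fintype Q] (step : ℕ → Q → α → Q → Prop)
    (σ : ℕ → ι) (t : ℕ) (h : Set.InjOn σ (Set.Iic t)) : (mnet step σ t).ReadOnce := by
  induction t with
  | zero => trivial
  | succ t ih =>
    refine ⟨?_, ih (h.mono fun i hi => ?_), trivial⟩
    · rw [mnet_vars]
      simp only [Net.vars, Finset.disjoint_singleton_right, Finset.mem_image, Finset.mem_range,
        not_exists, not_and]
      intro s hs hst
      have := h (show s ∈ Set.Iic (t + 1) by simp only [Set.mem_Iic]; omega)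
        (show t + 1 ∈ Set.Iic (t + 1) by simp) hst
      omega
    · simp only [Set.mem_Iic] at hi ⊢
      omega

lemma mnet_eval {Q : Type} [Fintype Q] (step : ℕ → Q → α → Q → Prop) (σ : ℕ → ι)
    (x : ι → α) (t : ℕ) : ∀ q q' : Q, 0 ≤ (mnet step σ t).eval x (q, q') ∧
      ((mnet step σ t).eval x (q, q') ≠ 0 ↔ ∃ r : ℕ → Q, r 0 = q ∧ r (t + 1) = q' ∧
        ∀ s ≤ t, step s (r s) (x (σ s)) (r (s + 1))) := by
  classical
  induction t with
  | zero =>
    intro q q'
    simp only [mnet, Net.eval]
    refine ⟨by split_ifs <;> norm_num, ?_⟩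
    constructor
    · intro h
      have h1 : step 0 q (x (σ 0)) q' := by
        by_contra hc
        simp [hc] at h
      refine ⟨fun i => if i = 0 then q else q', by simp, by simp, ?_⟩
      intro s hs
      have : s = 0 := by omega
      subst this
      simpa using h1
    · rintro ⟨r, rfl, rfl, hr⟩
      have := hr 0 le_rfl
      simp only [zero_add] at this ⊢
      simp [this]
  | succ t ih =>
    intro q q'
    have e : (mnet step σ (t + 1)).eval x (q, q') = ∑ p, (mnet step σ t).eval x (q, p) *
        (if step (t + 1) p (x (σ (t + 1))) q' then 1 else 0) := by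
      simp only [mnet, Net.eval, mmul, LinearMap.mk₂_apply]
    have hnn : ∀ p, 0 ≤ (mnet step σ t).eval x (q, p) *
        (if step (t + 1) p (x (σ (t + 1))) q' then (1 : ℚ) else 0) := by
      intro p
      refine mul_nonneg (ih q p).1 ?_
      split_ifs <;> norm_num
    rw [e]
    refine ⟨Finset.sum_nonneg fun p _ => hnn p, ?_⟩
    rw [Ne, Finset.sum_eq_zero_iff_of_nonneg fun p _ => hnn p]
    push Not
    constructor
    · rintro ⟨p, _, hp⟩
      obtain ⟨h1, h2⟩ := mul_ne_zero_iff.1 hp
      obtain ⟨r, hr0, hr1, hr⟩ := (ih q p).2.1 h1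
      have h3 : step (t + 1) p (x (σ (t + 1))) q' := by
        by_contra hc
        simp [hc] at h2
      refine ⟨fun i => if i ≤ t + 1 then r i else q', by simp [hr0], by simp, ?_⟩
      intro s hs
      rcases Nat.lt_or_ge s (t + 1) with h4 | h4
      · have a1 : s ≤ t + 1 := by omega
        have a2 : s + 1 ≤ t + 1 := by omega
        simp only [a1, a2, if_true]
        exact hr s (by omega)
      · have : s = t + 1 := by omega
        subst this
        simp only [le_refl, if_true, show ¬ (t + 1 + 1 ≤ t + 1) by omega, if_false]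
        rw [hr1]
        exact h3
    · rintro ⟨r, rfl, rfl, hr⟩
      refine ⟨r (t + 1), Finset.mem_univ _, mul_ne_zero ?_ ?_⟩
      · exact (ih _ _).2.2 ⟨r, rfl, rfl, fun s hs => hr s (by omega)⟩
      · simp [hr (t + 1) le_rfl]

end Pool.Agent.R756.TN
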