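import Pool.Agent.R756.TN.Net
import Pool.Agent.R756.TD.Main

/-!
Exponentially small density of the line-free supports of functions which are computed by read-once
tree tensor networks of bounded bond dimension.
-/

set_option autoImplicit false

namespace Pool.Agent.R756.TN

open Finset hiding dens
open Pool.Agent.Helper868.DHJ

/-- Blocks of small flattening rank. -/
theorem rank_bound (α : Type) [Fintype α] [Nonempty α] (d : ℕ) :
    ∃ m : ℕ, ∀ (K : Type) [Field K] (ι : Type) [Fintype ι] [DecidableEq ι]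
      (f : (ι → α) → K) (L : List (Finset ι)), (∀ B ∈ L, m ≤ B.card) → L.Pairwise Disjoint →
      (∀ B ∈ L, Rk d B f) → LineFree {x | f x ≠ 0} →
      dens {x | f x ≠ 0} ≤ (1 / 2) ^ L.length := by
  obtain ⟨N, hN⟩ := density_hales_jewett α (1 / (2 * (d + 1))) (by positivity)
  refine ⟨N, ?_⟩
  intro K _ ι _ _ f L hL hpw hrk hfree
  refine rank_core (N := N) (d := d) (η := 1 / (2 * ((d : ℝ) + 1))) (by positivity) ?_
    (fun κ _ _ hκ C hC => hN κ hκ C hC) L f univ (fun B _ => subset_univ B) hL hpw hrk ?_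
  · rw [mul_one_div, div_le_div_iff₀ (by positivity) (by norm_num)]
    linarith
  · intro u hu _
    exact hfree u hu

/-- For all alphabets `α` and all `w` there is `m` such that the line-free supports which are
computed by a tree tensor network of bond dimension at most `w` reading `v` coordinates once have
density at most `2 ^ (-s)`, `v ≤ 4 m s + m`. -/
theorem net_bound (α : Type) [Fintype α] [Nonempty α] (w : ℕ) :
    ∃ m : ℕ, 2 ≤ m ∧ ∀ (K : Type) [Field K] (W : Type) [Fintype W], Fintype.card W ≤ w →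
      ∀ (ι : Type) [Fintype ι] [DecidableEq ι] (D : Net K ι α W), D.ReadOnce →
      ∀ (φ : (W → K) →ₗ[K] K), LineFree {x | φ (D.eval x) ≠ 0} →
      ∃ s : ℕ, D.vars.card ≤ 4 * m * s + m ∧ dens {x | φ (D.eval x) ≠ 0} ≤ (1 / 2) ^ s := by
  obtain ⟨N, hN⟩ := rank_bound α (w ^ 2)
  refine ⟨max 2 N, le_max_left _ _, ?_⟩
  intro K _ W _ hW ι _ _ D hD φ hfree
  obtain ⟨L, O, b, j, h⟩ := blocks (d := w ^ 2) (Nat.pow_le_pow_left hW 2) (le_max_left 2 N) D hD
  generalize hm : max 2 N = m at *
  refine ⟨L.length, ?_, ?_⟩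
  · have h1 := h.count
    have h2 := h.marks
    have h3 := h.ocard
    have h4 : 2 * m * (L.length + b) ≤ 2 * m * (2 * L.length) :=
      Nat.mul_le_mul_left _ (by omega)
    have h5 : 2 * m * (2 * L.length) = 4 * m * L.length := by ring
    omega
  · refine hN K ι (fun x => φ (D.eval x)) L (fun B hB => ?_) h.pw
      (fun B hB => (h.rk B hB).comp φ) hfree
    exact ((le_max_right 2 N).trans hm.le).trans (h.big B hB)

/-- The exponential bound. -/
theorem exp_bound (α : Type) [Fintype α] (hα : 2 ≤ Fintype.card α) (w : ℕ) :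
    ∃ ρ : ℝ, 0 < ρ ∧ ρ < 1 ∧ ∀ (K : Type) [Field K] (W : Type) [Fintype W],
      Fintype.card W ≤ w →
      ∀ (ι : Type) [Fintype ι] [DecidableEq ι] (D : Net K ι α W), D.ReadOnce → D.vars = univ →
      ∀ (φ : (W → K) →ₗ[K] K), LineFree {x | φ (D.eval x) ≠ 0} →
      dens {x | φ (D.eval x) ≠ 0} ≤ ρ ^ (Fintype.card ι) := by
  have : Nonempty α := Fintype.card_pos_iff.1 (by omega)
  obtain ⟨m, hm, h⟩ := net_bound α w
  set q : ℝ := (Fintype.card α : ℝ) with hq
  have hq2 : (2 : ℝ) ≤ q := by rw [hq]; exact_mod_cast hα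
  set θ : ℝ := 1 - 1 / q ^ (2 * m) with hθ
  have hqm : (2 : ℝ) ≤ q ^ (2 * m) := by
    calc (2 : ℝ) ≤ q ^ 1 := by rw [pow_one]; exact hq2
      _ ≤ q ^ (2 * m) := pow_le_pow_right₀ (by linarith) (by omega)
  have hθ0 : 0 < θ := by
    rw [hθ, sub_pos, div_lt_one (by positivity)]
    linarith
  have hθ1 : θ < 1 := by
    rw [hθ]
    have : 0 < 1 / q ^ (2 * m) := by positivity
    linarith
  have hmR : (0 : ℝ) < m := by exact_mod_cast (by omega : 0 < m)
  set ρ1 : ℝ := (1 / 2 : ℝ) ^ (1 / (8 * m) : ℝ) with hρ1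
  set ρ2 : ℝ := θ ^ (1 / (2 * m) : ℝ) with hρ2
  have h10 : 0 < ρ1 := Real.rpow_pos_of_pos (by norm_num) _
  have h11 : ρ1 < 1 := Real.rpow_lt_one (by norm_num) (by norm_num) (by positivity)
  have h20 : 0 < ρ2 := Real.rpow_pos_of_pos hθ0 _
  have h21 : ρ2 < 1 := Real.rpow_lt_one hθ0.le hθ1 (by positivity)
  refine ⟨max ρ1 ρ2, lt_max_of_lt_left h10, max_lt h11 h21, ?_⟩
  intro K _ W _ hW ι _ _ D hD hvars φ hfree
  have hι : Nonempty ι := by
    have : D.vars.Nonempty := by
      clear hvars hfree hD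
      induction D with
      | leaf i f => exact ⟨i, by simp [Net.vars]⟩
      | node g l r ihl ihr => exact ihl.mono Finset.subset_union_left
    exact ⟨this.choose⟩
  rcases le_or_gt (2 * m) (Fintype.card ι) with hn | hn
  · obtain ⟨s, hs1, hs2⟩ := h K W hW ι D hD φ hfree
    rw [hvars, Finset.card_univ] at hs1
    refine hs2.trans ?_
    refine le_trans ?_ (pow_le_pow_left₀ h10.le (le_max_left ρ1 ρ2) _)
    rw [hρ1, ← Real.rpow_natCast, ← Real.rpow_natCast, ← Real.rpow_mul (by norm_num)]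
    apply Real.rpow_le_rpow_of_exponent_ge (by norm_num) (by norm_num)
    have h3 : Fintype.card ι ≤ 8 * m * s := by
      have : 4 * m * s + 4 * m * s = 8 * m * s := by ring
      omega
    have h4 : (Fintype.card ι : ℝ) ≤ 8 * m * s := by exact_mod_cast h3
    rw [div_mul_eq_mul_div, one_mul, div_le_iff₀ (by positivity)]
    linarith
  · have h5 := Pool.Agent.R756.TD.dens_lt_of_lineFree _ hfree
    have hn1 : 1 ≤ Fintype.card ι := Fintype.card_pos
    refine le_trans ?_ (pow_le_pow_left₀ h20.le (le_max_right ρ1 ρ2) _)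
    have h6 : dens {x | φ (D.eval x) ≠ 0} ≤ θ := by
      refine h5.trans ?_
      rw [hθ]
      have h7 : 1 / q ^ (2 * m) ≤ 1 / q ^ (Fintype.card ι) := by
        apply one_div_le_one_div_of_le (by positivity)
        exact pow_le_pow_right₀ (by linarith) hn.le
      linarith
    refine h6.trans ?_
    rw [hρ2, ← Real.rpow_natCast, ← Real.rpow_mul hθ0.le]
    calc θ = θ ^ (1 : ℝ) := (Real.rpow_one θ).symm
      _ ≤ θ ^ (1 / (2 * m) * (Fintype.card ι : ℝ)) := by
        apply Real.rpow_le_rpow_of_exponent_ge hθ0 hθ1.le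
        rw [div_mul_eq_mul_div, one_mul, div_le_one (by positivity)]
        exact_mod_cast hn.le

end Pool.Agent.R756.TN
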