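import Pool.Agent.R756.TN.Core

/-!
Read-once tree tensor networks: many disjoint blocks of small flattening rank.
-/

set_option autoImplicit false

namespace Pool.Agent.R756.TN

/-- A tree tensor network over the field `K`, with messages in `K ^ W`: the leaves read one
coordinate each, every inner node combines the messages of its two children by a bilinear map. -/
inductive Net (K ι α W : Type) [Field K] : Type
  | leaf (i : ι) (f : α → W → K) : Net K ι α W
  | node (g : (W → K) →ₗ[K] (W → K) →ₗ[K] (W → K)) (l r : Net K ι α W) : Net K ι α W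

variable {K ι α W : Type} [Field K]

/-- the message sent by the root -/
def Net.eval : Net K ι α W → (ι → α) → W → K
  | .leaf i f, x => f (x i)
  | .node g l r, x => g (l.eval x) (r.eval x)

section

variable [DecidableEq ι]

/-- the coordinates read at the leaves -/
def Net.vars : Net K ι α W → Finset ι
  | .leaf i _ => {i}
  | .node _ l r => l.vars ∪ r.vars

/-- no coordinate is read at two leaves -/
def Net.ReadOnce : Net K ι α W → Prop
  | .leaf _ _ => True
  | .node _ l r => Disjoint l.vars r.vars ∧ l.ReadOnce ∧ r.ReadOnce

omit [DecidableEq ι] in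
lemma Local.mono {Y : Type} {B C : Finset ι} {f : (ι → α) → Y} (h : Local B f) (hBC : B ⊆ C) :
    Local C f := fun x y hxy => h x y fun i hi => hxy i (hBC hi)

lemma eval_local (D : Net K ι α W) : Local D.vars D.eval := by
  induction D with
  | leaf i f =>
    intro x y h
    simp only [Net.eval]
    rw [h i (by simp [Net.vars])]
  | node g l r ihl ihr =>
    intro x y h
    simp only [Net.eval]
    rw [ihl x y fun i hi => h i (by simp [Net.vars, hi]),
      ihr x y fun i hi => h i (by simp [Net.vars, hi])]

/-- vector valued functions of small flattening rank -/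
def RkV (d : ℕ) (B : Finset ι) (F : (ι → α) → W → K) : Prop :=
  ∃ (κ : Type) (_ : Fintype κ) (a : κ → (ι → α) → K) (b : κ → (ι → α) → W → K),
    Fintype.card κ ≤ d ∧ (∀ k, Local B (a k)) ∧ (∀ k, LocalC B (b k)) ∧
      ∀ x, F x = ∑ k, a k x • b k x

omit [DecidableEq ι] in
lemma RkV.comp {d : ℕ} {B : Finset ι} {F : (ι → α) → W → K} (h : RkV d B F)
    (φ : (W → K) →ₗ[K] K) : Rk d B (fun x => φ (F x)) := by
  obtain ⟨κ, hfin, a, b, h1, h2, h3, h4⟩ := h
  refine ⟨κ, hfin, a, fun k x => φ (b k x), h1, h2, ?_, ?_⟩
  · intro k x y hxy
    simp only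
    rw [h3 k x y hxy]
  · intro x
    simp only
    rw [h4 x, map_sum]
    exact Finset.sum_congr rfl fun k _ => by rw [map_smul, smul_eq_mul]

/-- the state of the construction -/
structure St (d m k : ℕ) (D : Net K ι α W) (L : List (Finset ι))
    (O : Finset ι) (b j : ℕ) : Prop where
  sub : ∀ B ∈ L, B ⊆ D.vars
  disj : ∀ B ∈ L, Disjoint B O
  big : ∀ B ∈ L, m ≤ B.card
  rk : ∀ B ∈ L, RkV d B D.eval
  pw : L.Pairwise Disjoint
  osub : O ⊆ D.vars
  ocard : O.card < k
  count : D.vars.card ≤ 2 * m * (L.length + b) + O.card
  marks : b + j ≤ L.length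
  zero : j = 0 → Local O D.eval
  one : j = 1 → ∃ (F : (ι → α) → (W → K) →ₗ[K] (W → K)) (ψ : (ι → α) → W → K), Local O F ∧
    Local (D.vars \ O) ψ ∧ ∀ x, D.eval x = F x (ψ x)

lemma one_of_closed (D : Net K ι α W) : ∃ (F : (ι → α) → (W → K) →ₗ[K] (W → K))
    (ψ : (ι → α) → W → K), Local ∅ F ∧ Local (D.vars \ ∅) ψ ∧ ∀ x, D.eval x = F x (ψ x) := by
  refine ⟨fun _ => LinearMap.id, D.eval, fun _ _ _ => rfl, ?_, fun _ => rfl⟩
  rw [Finset.sdiff_empty]
  exact eval_local D

lemma close [Fintype W] {d m : ℕ} (hd : Fintype.card W ^ 2 ≤ d) {D : Net K ι α W}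
    {L : List (Finset ι)} {O : Finset ι} {b j : ℕ} (h : St d m (2 * m) D L O b j) (hm : 0 < m) :
    ∃ L' O' b' j', St d m m D L' O' b' j' := by
  classical
  rcases lt_or_ge O.card m with h1 | h1
  · exact ⟨L, O, b, j, h.sub, h.disj, h.big, h.rk, h.pw, h.osub, h1, h.count, h.marks,
      h.zero, h.one⟩
  have key : RkV d O D.eval → ∃ L' O' b' j', St d m m D L' O' b' j' := by
    intro hrk
    refine ⟨O :: L, ∅, b, 1, ?_⟩
    refine ⟨?_, ?_, ?_, ?_, ?_, by simp, by simpa using hm, ?_, ?_, by simp,
      fun _ => one_of_closed D⟩
    · intro p hp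
      rcases List.mem_cons.1 hp with rfl | hp
      · exact h.osub
      · exact h.sub p hp
    · intro p _
      simp
    · intro p hp
      rcases List.mem_cons.1 hp with rfl | hp
      · exact h1
      · exact h.big p hp
    · intro p hp
      rcases List.mem_cons.1 hp with rfl | hp
      · exact hrk
      · exact h.rk p hp
    · rw [List.pairwise_cons]
      exact ⟨fun q hq => (h.disj q hq).symm, h.pw⟩
    · have h2 := h.count
      have h3 := h.ocard
      simp only [List.length_cons, Finset.card_empty, add_zero]
      nlinarith
    · have h2 := h.marks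
      simp only [List.length_cons]
      omega
  rcases Nat.eq_zero_or_pos j with hj | hj
  · apply key
    refine ⟨W, inferInstance, fun w x => D.eval x w, fun w _ => Pi.single w 1, ?_, ?_, ?_, ?_⟩
    · refine le_trans ?_ hd
      exact Nat.le_self_pow (by norm_num) _
    · intro w x y hxy
      simp only
      rw [h.zero hj x y hxy]
    · intro w x y _
      rfl
    · intro x
      exact pi_eq_sum_univ' (D.eval x) |>.trans (by
        refine Finset.sum_congr rfl fun w _ => ?_
        congr 1)
  rcases Nat.lt_or_ge j 2 with hj2 | hj2
  · obtain ⟨F, ψ, hF, hψ, hev⟩ := h.one (by omega)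
    apply key
    refine ⟨W × W, inferInstance, fun k x => F x (Pi.single k.1 1) k.2,
      fun k x => (ψ x k.1) • Pi.single k.2 1, ?_, ?_, ?_, ?_⟩
    · refine le_trans ?_ hd
      rw [Fintype.card_prod, pow_two]
    · intro k x y hxy
      simp only
      rw [hF x y hxy]
    · intro k x y hxy
      simp only
      rw [hψ x y fun i hi => hxy i (Finset.mem_sdiff.1 hi).2]
    · intro x
      have e1 : ∀ v : W → K, v = ∑ w, v w • (Pi.single w 1 : W → K) := by
        intro v
        funext u
        simp [Finset.sum_apply, Pi.single_apply]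
      rw [hev x, Fintype.sum_prod_type]
      conv_lhs => rw [e1 (ψ x), map_sum]
      refine Finset.sum_congr rfl fun v _ => ?_
      rw [map_smul]
      conv_lhs => rw [e1 (F x (Pi.single v 1)), Finset.smul_sum]
      refine Finset.sum_congr rfl fun w _ => ?_
      rw [smul_smul, smul_smul, mul_comm]
  · refine ⟨L, ∅, b + 1, 1, h.sub, fun p _ => by simp, h.big, h.rk, h.pw, by simp,
      by simpa using hm, ?_, ?_, by simp, fun _ => one_of_closed D⟩
    · have h2 := h.count
      have h3 := h.ocard
      simp only [Finset.card_empty, add_zero]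
      nlinarith
    · have h2 := h.marks
      omega

theorem blocks [Fintype W] {d m : ℕ} (hd : Fintype.card W ^ 2 ≤ d) (hm : 2 ≤ m)
    (D : Net K ι α W) (hD : D.ReadOnce) :
    ∃ L O b j, St d m m D L O b j := by
  induction D with
  | leaf i f =>
    refine ⟨[], {i}, 0, 0, by simp, by simp, by simp, by simp, List.Pairwise.nil, ?_, ?_,
      ?_, by simp, ?_, by simp⟩
    · simp [Net.vars]
    · simp only [Finset.card_singleton]
      omega
    · simp [Net.vars]
    · intro _
      exact eval_local (Net.leaf i f)
  | node g l r ihl ihr =>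
    obtain ⟨hdis, hl, hr⟩ := hD
    obtain ⟨L1, O1, b1, j1, h1⟩ := ihl hl
    obtain ⟨L2, O2, b2, j2, h2⟩ := ihr hr
    have hO1r : Disjoint O1 r.vars := hdis.mono_left h1.osub
    have hO2l : Disjoint l.vars O2 := hdis.mono_right h2.osub
    have hO12 : Disjoint O1 O2 := hO1r.mono_right h2.osub
    refine close hd (L := L1 ++ L2) (O := O1 ∪ O2) (b := b1 + b2) (j := j1 + j2) ?_ (by omega)
    refine ⟨?_, ?_, ?_, ?_, ?_, ?_, ?_, ?_, ?_, ?_, ?_⟩
    · intro p hp
      rcases List.mem_append.1 hp with hp | hp
      · exact (h1.sub p hp).trans Finset.subset_union_left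
      · exact (h2.sub p hp).trans Finset.subset_union_right
    · intro p hp
      rw [Finset.disjoint_union_right]
      rcases List.mem_append.1 hp with hp | hp
      · exact ⟨h1.disj p hp, hO2l.mono_left (h1.sub p hp)⟩
      · exact ⟨(hO1r.mono_right (h2.sub p hp)).symm, h2.disj p hp⟩
    · intro p hp
      rcases List.mem_append.1 hp with hp | hp
      · exact h1.big p hp
      · exact h2.big p hp
    · intro p hp
      rcases List.mem_append.1 hp with hp | hp
      · obtain ⟨κ, hfin, a, b, e1, e2, e3, e4⟩ := h1.rk p hp
        refine ⟨κ, hfin, a, fun k x => g (b k x) (r.eval x), e1, e2, ?_, ?_⟩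
        · intro k x y hxy
          simp only
          rw [e3 k x y hxy, eval_local r x y]
          intro i hi
          apply hxy
          intro hip
          exact Finset.disjoint_left.1 hdis (h1.sub p hp hip) hi
        · intro x
          simp only [Net.eval]
          rw [e4 x, map_sum, LinearMap.sum_apply]
          exact Finset.sum_congr rfl fun k _ => by rw [map_smul, LinearMap.smul_apply]
      · obtain ⟨κ, hfin, a, b, e1, e2, e3, e4⟩ := h2.rk p hp
        refine ⟨κ, hfin, a, fun k x => g (l.eval x) (b k x), e1, e2, ?_, ?_⟩
        · intro k x y hxy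
          simp only
          rw [e3 k x y hxy, eval_local l x y]
          intro i hi
          apply hxy
          intro hip
          exact Finset.disjoint_left.1 hdis hi (h2.sub p hp hip)
        · intro x
          simp only [Net.eval]
          rw [e4 x, map_sum]
          exact Finset.sum_congr rfl fun k _ => by rw [map_smul]
    · rw [List.pairwise_append]
      refine ⟨h1.pw, h2.pw, fun p hp q hq => ?_⟩
      exact (hdis.mono_left (h1.sub p hp)).mono_right (h2.sub q hq)
    · exact Finset.union_subset_union h1.osub h2.osub
    · refine lt_of_le_of_lt (Finset.card_union_le _ _) ?_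
      have := h1.ocard
      have := h2.ocard
      omega
    · have e1 : (Net.node g l r).vars.card = l.vars.card + r.vars.card :=
        Finset.card_union_of_disjoint hdis
      have e2 : (O1 ∪ O2).card = O1.card + O2.card := Finset.card_union_of_disjoint hO12
      have c1 := h1.count
      have c2 := h2.count
      rw [e1, e2, List.length_append]
      nlinarith
    · have c1 := h1.marks
      have c2 := h2.marks
      rw [List.length_append]
      omega
    · intro hj x y hxy
      simp only [Net.eval]
      rw [h1.zero (by omega) x y fun i hi => hxy i (Finset.mem_union_left _ hi),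
        h2.zero (by omega) x y fun i hi => hxy i (Finset.mem_union_right _ hi)]
    · intro hj
      rcases Nat.eq_zero_or_pos j2 with hj2 | hj2
      · obtain ⟨F, ψ, hF, hψ, hev⟩ := h1.one (by omega)
        have hz := h2.zero hj2
        refine ⟨fun x => (g.flip (r.eval x)).comp (F x), ψ, ?_, ?_, ?_⟩
        · intro x y hxy
          simp only
          rw [hF x y fun i hi => hxy i (Finset.mem_union_left _ hi),
            hz x y fun i hi => hxy i (Finset.mem_union_right _ hi)]
        · refine hψ.mono ?_
          intro i hi
          rw [Finset.mem_sdiff] at hi ⊢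
          refine ⟨Finset.mem_union_left _ hi.1, ?_⟩
          rw [Finset.mem_union]
          rintro (h | h)
          · exact hi.2 h
          · exact Finset.disjoint_left.1 hO2l hi.1 h
        · intro x
          simp only [Net.eval]
          rw [hev x]
          rfl
      · obtain ⟨F, ψ, hF, hψ, hev⟩ := h2.one (by omega)
        have hz := h1.zero (by omega)
        refine ⟨fun x => (g (l.eval x)).comp (F x), ψ, ?_, ?_, ?_⟩
        · intro x y hxy
          simp only
          rw [hF x y fun i hi => hxy i (Finset.mem_union_right _ hi),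
            hz x y fun i hi => hxy i (Finset.mem_union_left _ hi)]
        · refine hψ.mono ?_
          intro i hi
          rw [Finset.mem_sdiff] at hi ⊢
          refine ⟨Finset.mem_union_right _ hi.1, ?_⟩
          rw [Finset.mem_union]
          rintro (h | h)
          · exact Finset.disjoint_left.1 hO1r h hi.1
          · exact hi.2 h
        · intro x
          simp only [Net.eval]
          rw [hev x]
          rfl

end

end Pool.Agent.R756.TN
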